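import Pool.Agent.helper86.OF.SpecL

/-! Module of:VIZ of project of (MP_c62920_co): Vizing's theorem from the adjacency lemma. -/

set_option autoImplicit false

open scoped BigOperators

namespace Pool.Agent.OF

noncomputable section

open Classical

theorem VIZ_noedge {V : Type} (G : SimpleGraph V) (D : ℕ) (h : ¬ ∃ v w, G.Adj v w) : EC G D :=
  ⟨fun _ => 0, fun v w hvw => absurd ⟨v, w, hvw⟩ h, fun v w _ hvw => absurd ⟨v, w, hvw⟩ h⟩

theorem VIZ_lt {V : Type} [Fintype V] (G G' : SimpleGraph V) (v w : V) (hvw : G.Adj v w)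
    (hle : ∀ a b, G'.Adj a b → G.Adj a b) (hnot : ¬ G'.Adj v w) :
    (Finset.univ.filter fun p : V × V => G'.Adj p.1 p.2).card <
      (Finset.univ.filter fun p : V × V => G.Adj p.1 p.2).card := by
  apply Finset.card_lt_card
  rw [Finset.ssubset_iff_of_subset]
  · refine ⟨(v, w), Finset.mem_filter.mpr ⟨Finset.mem_univ _, hvw⟩, ?_⟩
    intro h
    exact hnot (Finset.mem_filter.mp h).2
  · intro p hp
    exact Finset.mem_filter.mpr ⟨Finset.mem_univ _, hle _ _ (Finset.mem_filter.mp hp).2⟩

theorem VIZ_dg {V : Type} [Fintype V] (G G' : SimpleGraph V)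
    (hle : ∀ a b, G'.Adj a b → G.Adj a b) (x : V) : dg G' x ≤ dg G x := by
  unfold dg dgs
  apply Finset.card_le_card
  intro y hy
  exact Finset.mem_filter.mpr ⟨Finset.mem_univ _, hle _ _ (Finset.mem_filter.mp hy).2⟩

theorem VIZ (hV : VAL_stmt) : VIZ_stmt := by
  intro V _ G D hD
  suffices H : ∀ n : ℕ, ∀ G : SimpleGraph V,
      (Finset.univ.filter fun p : V × V => G.Adj p.1 p.2).card ≤ n → (∀ v, dg G v ≤ D) →
      EC G (D + 1) from H _ G le_rfl hD
  intro n
  induction n with
  | zero =>
    intro G hn _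
    apply VIZ_noedge
    rintro ⟨v, w, hvw⟩
    have h1 : (v, w) ∈ Finset.univ.filter fun p : V × V => G.Adj p.1 p.2 :=
      Finset.mem_filter.mpr ⟨Finset.mem_univ _, hvw⟩
    have h2 := Finset.card_pos.mpr ⟨_, h1⟩
    omega
  | succ n ih =>
    intro G hn hD
    by_contra hne
    by_cases hE : ∃ v w, G.Adj v w
    swap
    · exact hne (VIZ_noedge G _ hE)
    obtain ⟨v, w, hvw⟩ := hE
    have hdel : EC (G.deleteEdges {s(v, w)}) (D + 1) := by
      have hle : ∀ a b, (G.deleteEdges {s(v, w)}).Adj a b → G.Adj a b := fun a b hab =>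
        (SimpleGraph.deleteEdges_adj.mp hab).1
      have hnot : ¬ (G.deleteEdges {s(v, w)}).Adj v w := fun h =>
        (SimpleGraph.deleteEdges_adj.mp h).2 rfl
      generalize G.deleteEdges {s(v, w)} = G' at hle hnot
      apply ih
      · have := VIZ_lt G G' v w hvw hle hnot
        omega
      · intro x
        exact (VIZ_dg G G' hle x).trans (hD x)
    have h := hV V G (D + 1) (fun v => (hD v).trans (Nat.le_succ D)) hne v w hvw hdel
    have hempty : (Finset.univ.filter fun x => G.Adj v x ∧ x ≠ w ∧ dg G x = D + 1) = ∅ := by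
      apply Finset.filter_eq_empty_iff.mpr
      intro x _ hx
      have := hD x
      omega
    rw [hempty, Finset.card_empty] at h
    have := hD w
    omega

end

end Pool.Agent.OF
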